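import Pool.Agent.Q198.RQ.Top
import Pool.Agent.Q198.RQ.Sl
import Pool.Agent.Q198.RQ.MINK
import Pool.Agent.Q198.RQ.DIV

/-!
# An element which is not of rank one with infinite cyclic stable centraliser

The product `ℍ × ℍ` of two hyperbolic planes with the distance `d2` of the Riemannian product is a
Hadamard manifold on which `SL(2,ℝ) × SL(2,ℝ)` acts by isometries.  There is a subgroup `Γ` acting
freely, properly discontinuously and with compact quotient (so the quotient `M` is a compact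
Riemannian manifold of nonpositive curvature with universal cover `ℍ × ℍ` and fundamental group
`Γ`), and a nontrivial `g` in `Γ` with an axis that bounds a flat half plane, although the stable
centraliser of `g` in `Γ` is infinite cyclic.  So the answer to the question is NO.
-/

open UpperHalfPlane MatrixGroups

namespace Pool.Agent.Results.MP_adbdc7_gt.StableCentralisers

open Q198.RQ

theorem result :
    (∀ (g : G2) (x y : ℍ × ℍ), d2 (g • x) (g • y) = d2 x y) ∧
    ∃ Γ : Subgroup G2,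
      (ProperlyDiscontinuousSMul Γ (ℍ × ℍ) ∧
        (∀ g ∈ Γ, ∀ x : ℍ × ℍ, g • x = x → g = 1) ∧
        CompactSpace (MulAction.orbitRel.Quotient Γ (ℍ × ℍ)) ∧
        T2Space (MulAction.orbitRel.Quotient Γ (ℍ × ℍ)) ∧
        IsQuotientCoveringMap (Quotient.mk (MulAction.orbitRel Γ (ℍ × ℍ))) Γ ∧
        SimplyConnectedSpace (ℍ × ℍ) ∧
        ∀ x : MulAction.orbitRel.Quotient Γ (ℍ × ℍ), Nonempty (FundamentalGroup _ x ≃* Γ)) ∧
      ∃ g ∈ Γ, g ≠ 1 ∧ ¬ RankOne g ∧
        ∃ z ∈ SC Γ g, (∀ h, h ∈ SC Γ g ↔ ∃ k : ℤ, h = z ^ k) ∧ ∀ k : ℤ, z ^ k = 1 → k = 0 :=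
  ⟨d2_smul, Gam, top_part t_DIV t_FIX t_MINK,
    main_element t_DIV t_FIX t_CYC t_ELL t_HYP t_COM⟩

end Pool.Agent.Results.MP_adbdc7_gt.StableCentralisers
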